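import Pool.Agent.N522.DP.Main

/-!
# The period conjecture for products of abelian varieties of `GL₂`-type
-/

open Pool.Agent.N522.DP

/-- Q1 holds for every abelian variety over `ℚ` which is isogenous to a product of simple abelian
varieties of `GL₂`-type, e.g. for all quotients of the Jacobians `J_1(N)`; more generally it holds for
the smallest class, closed under products and isogenies, which contains these and any class `𝒞` of
abelian varieties for which it is known. -/
theorem Pool.Agent.Results.MP_21281f_nt.GL2Type.result {G : Type} [CommGroup G] (T : Theory G)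
    (hT : Facts T) :
    (∀ A : T.AV, Gen T T.GL2 A → Q1 T A) ∧
    (∀ 𝒞 : T.AV → Prop, (∀ A, 𝒞 A → Q1 T A) → ∀ A, Gen T (fun A => T.GL2 A ∨ 𝒞 A) A → Q1 T A) :=
  ⟨fun A h => q1_gen T hT _ (fun A hA => q1_gl2 T hT A hA) A h,
    fun _ h𝒞 A h => q1_gen T hT _ (fun A hA => hA.elim (q1_gl2 T hT A) (h𝒞 A)) A h⟩
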