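import Mathlib
import Pool.Agent.X255.RH.Main
import Pool.Agent.N534.DI.Tw

/-!
# The twists `L(x, A, ψ)` at all roots of almost all integral polynomials

The question is about the numbers `L_C(A, ψ, 1)` for an abelian variety `A` and the characters `ψ` of an abelian field of conductor `N`, which
should be algebraic up to a period of `A`. Let `f(n)` be the coefficients of a Dirichlet series which converges absolutely in some half-plane, and
let `ψ_1, …, ψ_r` be different Dirichlet characters modulo `N`, such that the Dirichlet series with the coefficients `f(n) ψ_i(n)` have analytic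
continuations `L_i` to `ℂ` outside a locally finite set `S` in some half-plane `Re s ≤ σ`. We suppose that for every `c` coprime to `N` there are
infinitely many primes `p ≡ c` modulo `N` with `f(p) ≠ 0`. For an abelian variety `f(p)` is the trace of Frobenius; without a condition of this
kind the result is false, as different twists of an elliptic curve with complex multiplication can be equal. Let `B` be a finite set of primes and `K`
an integer. We consider the numbers `q^(-x)`, `q ∈ B`, and `L_i^(k)(x)`, `i ≤ r`, `0 ≤ k < K`, at ALL the roots `x ∉ S` of an integral polynomial of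
degree `g`; so `x` runs through algebraic numbers of degree `g` with all their conjugates (rational numbers for `g = 1`).

We prove: for almost all integral polynomials with coefficients at most `T` these numbers, at all roots `x` together, satisfy no algebraic
relation over number fields whose degree and whose field degree is at most `ω(T)` and whose height is at most `T ^ ω(T)`, where `ω(T) → ∞`; the
coefficients of the relations may contain arbitrary given complex numbers `ξ_0, ξ_1, …`, for instance the products of powers of the periods of `A`.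
In particular `L(x, A, ψ) / Ω_A`, and the ratios `L(x, A, ψ) / L(x, A, ψ')`, which should be algebraic at `x = 1` (for `ψ`, `ψ'` of the same parity),
are not algebraic in this range.

The proof is an application of `Pool.Agent.X255.RH.main_all` (values of algebraically independent functions at the roots of almost all
polynomials). That the functions are algebraically independent over `ℂ(x)` is proved in `Pool.Agent.N534.DI.aindepP'`, with the derivations
`f(n) ↦ v_p(n) f(n)` of the ring of arithmetic functions.
-/

set_option autoImplicit false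

open Polynomial Filter Topology NumberField

namespace Pool.Agent.Results.MP_21281f_nt.TwistsAtAllRoots

/-- `L_i` is the continuation of the Dirichlet series with the coefficients `f(n) ψ_i(n)`, analytic outside `S`. -/
structure Twists (N : ℕ) (f : ℕ → ℂ) {r : ℕ} (ψ : Fin r → DirichletCharacter ℂ N) (L : Fin r → ℂ → ℂ) (S : Set ℂ) : Prop where
  /-- the modulus -/
  modulus : 0 < N
  /-- the characters are different -/
  different : Function.Injective ψ
  /-- there are only finitely many points of `S` in every disc -/
  locallyFinite : ∀ R : ℝ, (S ∩ Metric.closedBall 0 R).Finite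
  /-- in some half-plane there is no point of `S`, and the series converge absolutely and have the sums `L_i` -/
  halfPlane : ∃ σ : ℝ, (∀ s ∈ S, s.re ≤ σ) ∧ ∀ (i : Fin r) (s : ℂ), σ < s.re →
    LSeriesSummable (fun n => f n * ψ i n) s ∧ L i s = LSeries (fun n => f n * ψ i n) s
  /-- the `L_i` are analytic outside `S` -/
  analytic : ∀ i, AnalyticOnNhd ℂ (L i) Sᶜ
  /-- there are infinitely many primes with nonzero coefficient in every class of units modulo `N` -/
  primes : ∀ c : ℕ, c.Coprime N → ∀ n : ℕ, ∃ p, n < p ∧ p.Prime ∧ p ≡ c [MOD N] ∧ f p ≠ 0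

/-- The integral vectors `a = (a_0, …, a_g)` with `|a_i| ≤ T`. -/
noncomputable def box (g T : ℕ) : Finset (Fin (g + 1) → ℤ) := Fintype.piFinset fun _ => Finset.Icc (-(T : ℤ)) (T : ℤ)

/-- The polynomial `a_0 + a_1 x + … + a_g x^g`. -/
noncomputable def poly {g : ℕ} (a : Fin (g + 1) → ℤ) : ℂ[X] := ∑ i, C (a i : ℂ) * X ^ (i : ℕ)

/-- The points outside `S`. -/
def dom (S : Set ℂ) : Set ℂ := Sᶜ

/-- The roots outside `S` of the polynomial with the coefficients `a`. -/
noncomputable def roots {g : ℕ} (S : Set ℂ) (a : Fin (g + 1) → ℤ) : Finset ℂ := by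
  classical exact (poly a).roots.toFinset.filter fun z => z ∈ dom S

/-- The names of the functions: `q ∈ B` stands for `q^(-x)`, and `(i, k)` stands for `L_i^(k)(x)`. -/
abbrev Index (B : Finset ℕ) (r K : ℕ) : Type := {q // q ∈ B} ⊕ (Fin r × Fin K)

/-- The values. -/
noncomputable def values {B : Finset ℕ} {r K : ℕ} (L : Fin r → ℂ → ℂ) : Index B r K → ℂ → ℂ
  | Sum.inl q, x => ((q : ℕ) : ℂ) ^ (-x)
  | Sum.inr j, x => iteratedDeriv j.2 (L j.1) x

/-- The numbers `x q` satisfy no relation of degree at most `k` in each of them with coefficients `∑_{b < k} ξ_b c_b`, where the `c_b` are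
integers of a number field of degree at most `k` all of whose conjugates are at most `T ^ k`, except the relations all of whose coefficients
vanish. -/
def NoRelation {Q : Type} [Fintype Q] [DecidableEq Q] (ξ : ℕ → ℂ) (k : ℕ) (T : ℝ) (x : Q → ℂ) : Prop :=
  ∀ (F : Type) [Field F] [NumberField F], Module.finrank ℚ F ≤ k → ∀ (io : F →+* ℂ)
    (c : (Q → Fin (k + 1)) → Fin k → 𝓞 F), (∀ l b (φ : F →+* ℂ), ‖φ (c l b : F)‖ ≤ T ^ k) →
    ∑ l, (∑ b : Fin k, ξ b * io (c l b : F)) * ∏ q, x q ^ (l q : ℕ) = 0 → ∀ l, ∑ b : Fin k, ξ b * io (c l b : F) = 0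

/-- The polynomial with the coefficients `a` has degree `g` and simple roots, and there is no relation between the numbers `q^(-x)` and
`L_i^(k)(x)` at all its roots outside `S` together. -/
def Good {g : ℕ} {r : ℕ} (L : Fin r → ℂ → ℂ) (S : Set ℂ) (B : Finset ℕ) (K : ℕ) (ξ : ℕ → ℂ) (k : ℕ) (T : ℝ) (a : Fin (g + 1) → ℤ) : Prop :=
  a (Fin.last g) ≠ 0 ∧ (poly a).Separable ∧
    NoRelation ξ k T fun q : {x // x ∈ roots S a} × Index B r K => values L q.2 q.1

section proofs

variable {N : ℕ} {f : ℕ → ℂ} {r : ℕ} {ψ : Fin r → DirichletCharacter ℂ N} {L : Fin r → ℂ → ℂ} {S : Set ℂ} {K : ℕ}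

theorem closed_of {D : Set ℂ} (hD : ∀ R : ℝ, (D ∩ Metric.closedBall 0 R).Finite) : IsClosed D := by
  refine isClosed_of_closure_subset fun z hz => ?_
  have h1 : z ∈ closure (Metric.ball z 1 ∩ D) := Metric.isOpen_ball.inter_closure ⟨Metric.mem_ball_self one_pos, hz⟩
  have h2 : Metric.ball z 1 ∩ D ⊆ D ∩ Metric.closedBall 0 (‖z‖ + 1) := by
    rintro w ⟨hw, hwD⟩
    refine ⟨hwD, ?_⟩
    rw [mem_closedBall_zero_iff]
    rw [Metric.mem_ball, dist_eq_norm] at hw
    have := norm_sub_norm_le w z
    linarith
  have h3 := closure_mono h2 h1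
  rw [(hD _).isClosed.closure_eq] at h3
  exact h3.1

theorem countable_of {D : Set ℂ} (hD : ∀ R : ℝ, (D ∩ Metric.closedBall 0 R).Finite) : D.Countable := by
  have h1 : D = ⋃ n : ℕ, D ∩ Metric.closedBall 0 n := by
    rw [← Set.inter_iUnion, Metric.iUnion_closedBall_nat, Set.inter_univ]
  rw [h1]
  exact Set.countable_iUnion fun n => (hD n).countable

theorem an (h : Twists N f ψ L S) {B : Finset ℕ} (hB : ∀ q ∈ B, q.Prime) (j : Index B r K) :
    AnalyticOnNhd ℂ (values L j) (dom S) := by
  rcases j with ⟨q, hq⟩ | j
  · intro z _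
    have hq0 : ((q : ℕ) : ℂ) ∈ Complex.slitPlane := by
      rw [Complex.natCast_mem_slitPlane]
      exact (hB q hq).ne_zero
    exact AnalyticAt.cpow (g := fun x : ℂ => -x) analyticAt_const analyticAt_id.neg hq0
  · change AnalyticOnNhd ℂ (iteratedDeriv j.2 (L j.1)) Sᶜ
    rw [iteratedDeriv_eq_iterate]
    exact (h.analytic j.1).iterated_deriv j.2

/-- the embedding of the names -/
noncomputable def emb (B : Finset ℕ) (r K : ℕ) :
    Option (Index B r K) → Option ({q // q ∈ B} ⊕ Pool.Agent.N534.DI.JP (Fin r) 1 {0} K)
  | none => none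
  | some (Sum.inl q) => some (Sum.inl q)
  | some (Sum.inr j) => some (Sum.inr (j.1, ((0 : Fin 1), (⟨0, Finset.mem_singleton_self 0⟩, j.2))))

theorem emb_inj (B : Finset ℕ) (r K : ℕ) : Function.Injective (emb B r K) := by
  rintro (_ | _ | ⟨_, _⟩) (_ | _ | ⟨_, _⟩) h
  all_goals simp_all [emb]

theorem ind (h : Twists N f ψ L S) {B : Finset ℕ} (hB : ∀ q ∈ B, q.Prime) :
    Pool.Agent.X255.RH.Indep (dom S) (values (B := B) (K := K) L) := by
  obtain ⟨σ, hσ1, hσ2⟩ := h.halfPlane
  refine Pool.Agent.X255.RH.indep_of_aindepS fun P hP => ?_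
  refine MvPolynomial.rename_injective _ (emb_inj B r K) ?_
  rw [map_zero]
  refine Pool.Agent.N534.DI.aindepP' σ B hB (fun (i : Fin r) n => f n * ψ i n)
    (Pool.Agent.N534.DI.sepP_twist N h.modulus f ψ h.different h.primes) L
    (fun i => LSeries.abscissaOfAbsConv_le_of_forall_lt_LSeriesSummable' fun y hy => ?_) (fun i s hs => (hσ2 i s hs).2) σ _ fun x hx => ?_
  · exact (hσ2 i y (by exact_mod_cast hy)).1
  · rw [MvPolynomial.eval_rename]
    have hx' : (x : ℂ) ∈ dom S := by
      intro hz
      have h1 := hσ1 _ hz
      rw [Complex.ofReal_re] at h1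
      linarith
    refine Eq.trans ?_ (hP (x : ℂ) hx')
    congr 1
    congr 1
    funext o
    rcases o with _ | _ | j
    · rfl
    · rfl
    · change iteratedDeriv j.2 (L j.1) ((((0 + 1 : ℕ) : ℂ)) * x + ((0 : ℝ) : ℂ)) = iteratedDeriv j.2 (L j.1) x
      rw [zero_add, Nat.cast_one, one_mul, Complex.ofReal_zero, add_zero]

end proofs

open scoped Classical in
/-- **All roots of almost all polynomials.** Let the `L_i` be the continuations of the twists of a Dirichlet series as above. For every degree
`g ≥ 1` and all complex numbers `ξ_0, ξ_1, …` there is a function `ω(T) → ∞` such that among the `(2 T + 1)^(g + 1)` integral polynomials with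
coefficients at most `T` at most the proportion `1 / ω(T)` is not good. -/
theorem result {N : ℕ} {f : ℕ → ℂ} {r : ℕ} {ψ : Fin r → DirichletCharacter ℂ N} {L : Fin r → ℂ → ℂ} {S : Set ℂ} (h : Twists N f ψ L S)
    (B : Finset ℕ) (hB : ∀ q ∈ B, q.Prime) (K : ℕ) (g : ℕ) (hg : 0 < g) (ξ : ℕ → ℂ) :
    ∃ ω : ℕ → ℕ, Tendsto ω atTop atTop ∧ Monotone ω ∧ ∀ T : ℕ,
      ω T * ((box g T).filter fun a => ¬ Good L S B K ξ (ω T) T a).card ≤ (box g T).card :=
  Pool.Agent.X255.RH.main_all hg
    ((countable_of h.locallyFinite).isConnected_compl_of_one_lt_rank (by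
      rw [Complex.rank_real_complex]; norm_num)).isPreconnected
    (closed_of h.locallyFinite).isOpen_compl (fun _ => dom S)
    (fun _ => Pool.Agent.X255.RH.tame_of_discrete h.locallyFinite) (an h hB) (ind h hB) ξ

end Pool.Agent.Results.MP_21281f_nt.TwistsAtAllRoots
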